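import Pool.Agent.helper6.LD.Defs

/-!
E2: coefficients of the logarithmic derivative of a zero-free function (Borel-Caratheodory).
-/

set_option autoImplicit false

open Complex Metric

namespace Pool.Agent.helper6.LD

/-- holomorphic logarithm on a disc, normalised at the centre -/
theorem h13_exists_log {g : ℂ → ℂ} {c : ℂ} {R : ℝ} (hR : 0 < R)
    (hg : AnalyticOnNhd ℂ g (ball c R)) (h0 : ∀ z ∈ ball c R, g z ≠ 0) :
    ∃ h : ℂ → ℂ, h c = 0 ∧ (∀ z ∈ ball c R, HasDerivAt h (logDeriv g z) z) ∧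
      ∀ z ∈ ball c R, g z = g c * Complex.exp (h z) := by
  have hcb : c ∈ ball c R := mem_ball_self hR
  have hdg : DifferentiableOn ℂ g (ball c R) := hg.differentiableOn
  have hG : DifferentiableOn ℂ (logDeriv g) (ball c R) := by
    have hd : DifferentiableOn ℂ (deriv g) (ball c R) := hdg.deriv isOpen_ball
    intro z hz
    exact (hd z hz).div (hdg z hz) (h0 z hz)
  obtain ⟨h, hhc, hh⟩ := (hG.isExactOn_ball).with_val_at c 0
  refine ⟨h, hhc, hh, ?_⟩
  have hdh : DifferentiableOn ℂ h (ball c R) := fun z hz => (hh z hz).differentiableAt.differentiableWithinAt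
  have hφ : DifferentiableOn ℂ (fun z => g z * Complex.exp (-(h z))) (ball c R) :=
    hdg.mul (hdh.neg.cexp)
  have hφ' : (ball c R).EqOn (deriv (fun z => g z * Complex.exp (-(h z)))) 0 := by
    intro z hz
    have h1 : HasDerivAt g (deriv g z) z := (hg z hz).differentiableAt.hasDerivAt
    have h2 : HasDerivAt (fun z => Complex.exp (-(h z))) (Complex.exp (-(h z)) * (-(logDeriv g z))) z :=
      (hh z hz).neg.cexp
    have h3 := h1.mul h2
    have h4 : deriv (fun z => g z * Complex.exp (-(h z))) z =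
        deriv g z * Complex.exp (-(h z)) + g z * (Complex.exp (-(h z)) * (-(logDeriv g z))) := h3.deriv
    rw [h4, logDeriv_apply]
    have := h0 z hz
    simp only [Pi.zero_apply]
    field_simp
    ring
  intro z hz
  have key := isOpen_ball.is_const_of_deriv_eq_zero (convex_ball c R).isPreconnected hφ hφ' hz hcb
  simp only [hhc, neg_zero, Complex.exp_zero, mul_one] at key
  rw [← key, mul_assoc, ← Complex.exp_add]
  simp

/-- E2 -/
theorem coeff_bound {g : ℂ → ℂ} {c : ℂ} {R B : ℝ} (hR : 0 < R) (hB : 0 < B)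
    (hg : AnalyticOnNhd ℂ g (ball c R)) (h0 : ∀ z ∈ ball c R, g z ≠ 0)
    (hb : ∀ z ∈ ball c R, ‖g z‖ ≤ Real.exp B * ‖g c‖) {k : ℕ} (hk : 1 ≤ k) :
    ‖iteratedDeriv (k - 1) (logDeriv g) c / (k - 1).factorial‖ ≤ 6 * B * k ^ 2 * (R ^ k)⁻¹ := by
  have hcb : c ∈ ball c R := mem_ball_self hR
  obtain ⟨h, hhc, hh, hge⟩ := h13_exists_log hR hg h0
  have hdh : DifferentiableOn ℂ h (ball c R) :=
    fun z hz => (hh z hz).differentiableAt.differentiableWithinAt
  -- real part
  have hre : ∀ z ∈ ball c R, (h z).re ≤ B := by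
    intro z hz
    have h1 := hb z hz
    rw [hge z hz, norm_mul, Complex.norm_exp, mul_comm (Real.exp B)] at h1
    have h2 : 0 < ‖g c‖ := norm_pos_iff.mpr (h0 c hcb)
    have h3 := le_of_mul_le_mul_left h1 h2
    exact Real.exp_le_exp.mp h3
  have hk0 : (0 : ℝ) < k := by exact_mod_cast hk
  set r : ℝ := R * k / (k + 1) with hr
  have hr0 : 0 < r := by positivity
  have hrR : r < R := by
    rw [hr, div_lt_iff₀ (by positivity)]
    nlinarith
  -- bound on the circle
  have hcirc : ∀ z ∈ sphere c r, ‖h z‖ ≤ 2 * B * k := by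
    intro z hz
    have hz' : ‖z - c‖ = r := mem_sphere_iff_norm.mp hz
    have hshift : DifferentiableOn ℂ (fun w => h (c + w)) (ball 0 R) := by
      intro w hw
      have : c + w ∈ ball c R := by simpa [mem_ball_iff_norm] using hw
      exact ((hh _ this).comp_const_add c w).differentiableAt.differentiableWithinAt
    have hmap : Set.MapsTo (fun w => h (c + w)) (ball 0 R) {z | z.re ≤ B} := by
      intro w hw
      have : c + w ∈ ball c R := by simpa [mem_ball_iff_norm] using hw
      exact hre _ this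
    have hw : z - c ∈ ball (0 : ℂ) R := by
      rw [mem_ball_zero_iff, hz']; exact hrR
    have := borelCaratheodory_zero hB hshift hmap hR hw (by simp [hhc])
    simp only [add_sub_cancel, hz'] at this
    refine this.trans (le_of_eq ?_)
    have : R - r = R / (k + 1) := by rw [hr]; field_simp; ring
    rw [this, hr]
    field_simp
  have hcl : DiffContOnCl ℂ h (ball c r) := by
    refine DifferentiableOn.diffContOnCl ?_
    rw [closure_ball _ hr0.ne']
    exact hdh.mono (closedBall_subset_ball hrR)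
  have hcauchy := norm_iteratedDeriv_le_of_forall_mem_sphere_norm_le k hr0 hcl hcirc
  -- relate the derivatives
  have hrel : iteratedDeriv (k - 1) (logDeriv g) c = iteratedDeriv k h c := by
    obtain ⟨j, rfl⟩ : ∃ j, k = j + 1 := ⟨k - 1, by omega⟩
    rw [Nat.add_sub_cancel, iteratedDeriv_succ']
    apply Filter.EventuallyEq.iteratedDeriv_eq
    filter_upwards [isOpen_ball.mem_nhds hcb] with z hz
    exact (hh z hz).deriv.symm
  rw [hrel, norm_div, Complex.norm_natCast]
  have hfac : (k.factorial : ℝ) = k * (k - 1).factorial := by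
    obtain ⟨j, rfl⟩ : ∃ j, k = j + 1 := ⟨k - 1, by omega⟩
    rw [Nat.add_sub_cancel, Nat.factorial_succ]; push_cast; ring
  have hfpos : (0 : ℝ) < (k - 1).factorial := by exact_mod_cast Nat.factorial_pos _
  have he : ((k + 1 : ℝ) / k) ^ k ≤ 3 := by
    have h1 : (k + 1 : ℝ) / k = 1 / k + 1 := by field_simp; ring
    have h2 : (1 / k + 1 : ℝ) ≤ Real.exp (1 / k) := Real.add_one_le_exp _
    have h3 : (0 : ℝ) ≤ 1 / k + 1 := by positivity
    calc ((k + 1 : ℝ) / k) ^ k = (1 / k + 1 : ℝ) ^ k := by rw [h1]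
      _ ≤ (Real.exp (1 / k)) ^ k := pow_le_pow_left₀ h3 h2 k
      _ = Real.exp 1 := by rw [← Real.exp_nat_mul]; congr 1; field_simp
      _ ≤ 3 := by have := Real.exp_one_lt_d9; linarith
  have hrk : (r ^ k)⁻¹ = ((k + 1 : ℝ) / k) ^ k * (R ^ k)⁻¹ := by
    rw [hr, div_pow, mul_pow, div_pow]
    field_simp
  calc ‖iteratedDeriv k h c‖ / ((k - 1).factorial : ℝ)
      ≤ (k.factorial * (2 * B * k) / r ^ k) / ((k - 1).factorial : ℝ) := by gcongr
    _ = 2 * B * k ^ 2 * (r ^ k)⁻¹ := by rw [hfac]; field_simp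
    _ = 2 * B * k ^ 2 * (((k + 1 : ℝ) / k) ^ k * (R ^ k)⁻¹) := by rw [hrk]
    _ ≤ 2 * B * k ^ 2 * (3 * (R ^ k)⁻¹) := by gcongr
    _ = 6 * B * k ^ 2 * (R ^ k)⁻¹ := by ring

end Pool.Agent.helper6.LD
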