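import Pool.Agent.helper13.LD.E1
import Pool.Agent.helper13.LD.E2

/-!
E3: local expansion of the logarithmic derivative.
-/

set_option autoImplicit false

open Complex Metric Filter Topology

namespace Pool.Agent.helper6.LD

theorem h13_order_const_mul {f : ℂ → ℂ} {a z : ℂ} (ha : a ≠ 0) (hf : AnalyticAt ℂ f z) :
    analyticOrderAt (fun w => a * f w) z = analyticOrderAt f z := by
  have h1 : (fun w => a * f w) = (fun _ => a) * f := rfl
  have hc : AnalyticAt ℂ (fun _ : ℂ => a) z := analyticAt_const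
  rw [h1, analyticOrderAt_mul hc hf, hc.analyticOrderAt_eq_zero.mpr ha, zero_add]

/-- Jensen: number of zeros in the smaller disc -/
theorem h13_count {f : ℂ → ℂ} {c : ℂ} {R R' B : ℝ} (hR : 0 < R) (hRR : R < R') (hB : 0 ≤ B)
    (hf : AnalyticOnNhd ℂ f (closedBall c R')) (hc : f c ≠ 0)
    (hb : ∀ z ∈ closedBall c R', ‖f z‖ ≤ Real.exp B * ‖f c‖) (S : Finset ℂ)
    (hS : ∀ ρ, ρ ∈ S ↔ ρ ∈ closedBall c R ∧ f ρ = 0) :
    ((∑ ρ ∈ S, analyticOrderNatAt f ρ : ℕ) : ℝ) ≤ B / Real.log (R' / R) := by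
  have hR' : 0 < R' := hR.trans hRR
  set F : ℂ → ℂ := fun w => (f c)⁻¹ * f w with hF
  have hinv : (f c)⁻¹ ≠ 0 := inv_ne_zero hc
  have hFan : AnalyticOnNhd ℂ F (closedBall c R') := fun z hz => analyticAt_const.mul (hf z hz)
  have hFc : F c = 1 := by simp [hF, hc]
  have hFb : ∀ z ∈ sphere c |R'|, ‖F z‖ ≤ Real.exp B := by
    intro z hz
    rw [abs_of_pos hR'] at hz
    have h1 := hb z (sphere_subset_closedBall hz)
    rw [hF]
    simp only [norm_mul, norm_inv]
    rw [inv_mul_le_iff₀ (norm_pos_iff.mpr hc), mul_comm]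
    exact h1
  have hJ := AnalyticOnNhd.sum_divisor_le (c := c) (r := R) (R := R') (M := Real.exp B) (f := F)
    (abs_pos.mpr hR.ne') (by rw [abs_of_pos hR, abs_of_pos hR']; exact hRR) (Real.one_le_exp hB)
    (by rw [abs_of_pos hR']; exact hFan) (by rw [hFc]; exact one_ne_zero) hFb
  rw [hFc, norm_one, div_one, Real.log_exp, abs_of_pos hR] at hJ
  have hFanR : AnalyticOnNhd ℂ F (closedBall c R) :=
    hFan.mono (closedBall_subset_closedBall hRR.le)
  have hdiv : ∀ u, MeromorphicOn.divisor F (closedBall c R) u =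
      if u ∈ S then (analyticOrderNatAt f u : ℤ) else 0 := by
    intro u
    by_cases hu : u ∈ closedBall c R
    · have hu' : u ∈ closedBall c R' := closedBall_subset_closedBall hRR.le hu
      have hord : analyticOrderAt F u = ((analyticOrderNatAt f u : ℕ) : ℕ∞) := by
        rw [hF, h13_order_const_mul hinv (hf u hu'),
          Nat.cast_analyticOrderNatAt (h13_order_ne_top hR' hf hc hu')]
      rw [MeromorphicOn.AnalyticOnNhd.divisor_apply hFanR hu, hord]
      by_cases huS : u ∈ S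
      · simp [huS]
      · have hfu : f u ≠ 0 := fun h => huS ((hS u).mpr ⟨hu, h⟩)
        have : analyticOrderAt f u = 0 := (hf u hu').analyticOrderAt_eq_zero.mpr hfu
        have h0 : analyticOrderNatAt f u = 0 := by simp [analyticOrderNatAt, this]
        simp [huS, h0]
    · have huS : u ∉ S := fun h => hu ((hS u).mp h).1
      simp [hu, huS]
  have hsum : (∑ᶠ u, MeromorphicOn.divisor F (closedBall c R) u) =
      ((∑ ρ ∈ S, analyticOrderNatAt f ρ : ℕ) : ℤ) := by
    rw [finsum_congr hdiv, finsum_eq_sum_of_support_subset (s := S)]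
    · push_cast
      exact Finset.sum_congr rfl fun ρ hρ => by simp [hρ]
    · intro u hu
      by_contra h
      simp at hu h
      exact h hu.1
  rw [hsum] at hJ
  exact_mod_cast hJ

theorem h13_iter_inv (k : ℕ) (hk : 1 ≤ k) (c ρ : ℂ) :
    iteratedDeriv (k - 1) (fun z => (z - ρ)⁻¹) c / (k - 1).factorial = - ((ρ - c) ^ k)⁻¹ := by
  obtain ⟨j, rfl⟩ : ∃ j, k = j + 1 := ⟨k - 1, by omega⟩
  rw [Nat.add_sub_cancel, iteratedDeriv_eq_iterate]
  have h := congr_fun (iter_deriv_inv_linear_sub (𝕜 := ℂ) j 1 ρ) c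
  simp only [one_mul, one_pow, mul_one] at h
  rw [h]
  have hfac : (j.factorial : ℂ) ≠ 0 := by exact_mod_cast Nat.factorial_ne_zero j
  have hz : (c - ρ) ^ (-1 - (j : ℤ)) = ((c - ρ) ^ (j + 1))⁻¹ := by
    rw [← zpow_natCast, ← zpow_neg]; congr 1; push_cast; ring
  rw [hz]
  have hsw : (ρ - c) ^ (j + 1) = (-1) ^ (j + 1) * (c - ρ) ^ (j + 1) := by
    rw [← mul_pow]; congr 1; ring
  have h1 : ((-1 : ℂ) ^ (j + 1))⁻¹ = (-1) ^ (j + 1) := by
    rw [← inv_pow]; norm_num
  rw [hsw, mul_inv, h1, pow_succ (-1 : ℂ) j]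
  field_simp

/-- E3 -/
theorem expansion (R R' : ℝ) (hR : 0 < R) (hRR : R < R') : ∃ C : ℝ, 0 < C ∧
    ∀ (f : ℂ → ℂ) (c : ℂ) (B : ℝ) (k : ℕ), 1 ≤ k → 1 ≤ B →
      AnalyticOnNhd ℂ f (closedBall c R') → f c ≠ 0 →
      (∀ z ∈ closedBall c R', ‖f z‖ ≤ Real.exp B * ‖f c‖) →
      ‖iteratedDeriv (k - 1) (logDeriv f) c / (k - 1).factorial +
        ∑ᶠ ρ ∈ {ρ : ℂ | ρ ∈ closedBall c R ∧ f ρ = 0},
          (analyticOrderNatAt f ρ : ℂ) * ((ρ - c) ^ k)⁻¹‖ ≤ C * B * k ^ 2 * (R ^ k)⁻¹ := by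
  have hR' : 0 < R' := hR.trans hRR
  have hlog : 0 < Real.log (R' / R) := Real.log_pos (by rw [lt_div_iff₀ hR]; linarith)
  set κ : ℝ := max 0 (Real.log (R / (R' - R))) with hκ
  have hκ0 : 0 ≤ κ := le_max_left _ _
  refine ⟨6 * (1 + κ / Real.log (R' / R)), by positivity, ?_⟩
  intro f c B k hk hB hf hc hb
  have hB0 : 0 ≤ B := by linarith
  obtain ⟨S, g, hS, hg, hfg, hgne⟩ := factor hR hRR hf hc
  have hN := h13_count hR hRR hB0 hf hc hb S hS
  set N : ℕ := ∑ ρ ∈ S, analyticOrderNatAt f ρ with hNdef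
  set P : ℂ → ℂ := fun z => ∏ ρ ∈ S, (z - ρ) ^ analyticOrderNatAt f ρ with hP
  have hcb : c ∈ closedBall c R' := mem_closedBall_self hR'.le
  have hcR : c ∈ closedBall c R := mem_closedBall_self hR.le
  have hcS : c ∉ S := fun h => hc ((hS c).mp h).2
  have hgc : g c ≠ 0 := hgne c hcR
  -- bound of g
  set B' : ℝ := B * (1 + κ / Real.log (R' / R)) with hB'
  have hB'pos : 0 < B' := by positivity
  have hsphere : ∀ z ∈ sphere c R', ‖g z‖ ≤ Real.exp B' * ‖g c‖ := by
    intro z hz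
    have hz1 : ‖z - c‖ = R' := mem_sphere_iff_norm.mp hz
    have hz' : z ∈ closedBall c R' := sphere_subset_closedBall hz
    have hd : 0 < R' - R := by linarith
    have hPz : (R' - R) ^ N ≤ ‖P z‖ := by
      rw [hP, hNdef]
      simp only [norm_prod, norm_pow]
      rw [← Finset.prod_pow_eq_pow_sum]
      refine Finset.prod_le_prod (fun _ _ => by positivity) fun ρ hρ => ?_
      refine pow_le_pow_left₀ hd.le ?_ _
      have h1 : ‖ρ - c‖ ≤ R := mem_closedBall_iff_norm.mp ((hS ρ).mp hρ).1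
      have h2 : ‖z - c‖ ≤ ‖z - ρ‖ + ‖ρ - c‖ := by
        have := norm_add_le (z - ρ) (ρ - c)
        simpa using this
      linarith
    have hPc : ‖P c‖ ≤ R ^ N := by
      rw [hP, hNdef]
      simp only [norm_prod, norm_pow]
      rw [← Finset.prod_pow_eq_pow_sum]
      refine Finset.prod_le_prod (fun _ _ => by positivity) fun ρ hρ => ?_
      refine pow_le_pow_left₀ (norm_nonneg _) ?_ _
      have h1 : ‖ρ - c‖ ≤ R := mem_closedBall_iff_norm.mp ((hS ρ).mp hρ).1
      rwa [norm_sub_rev]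
    have h1 := hb z hz'
    rw [hfg z hz', hfg c hcb, norm_mul, norm_mul] at h1
    have h2 : (R' - R) ^ N * ‖g z‖ ≤ Real.exp B * (R ^ N * ‖g c‖) := by
      calc (R' - R) ^ N * ‖g z‖ ≤ ‖P z‖ * ‖g z‖ := by gcongr
        _ ≤ Real.exp B * (‖P c‖ * ‖g c‖) := h1
        _ ≤ Real.exp B * (R ^ N * ‖g c‖) := by gcongr
    have h3 : ‖g z‖ ≤ Real.exp B * ((R / (R' - R)) ^ N * ‖g c‖) := by
      rw [div_pow]
      have hdN : 0 < (R' - R) ^ N := by positivity
      rw [← mul_le_mul_iff_right₀ hdN]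
      refine h2.trans (le_of_eq ?_)
      field_simp
    refine h3.trans ?_
    have h4 : (R / (R' - R)) ^ N ≤ Real.exp (κ * (B / Real.log (R' / R))) := by
      have hpos : 0 < R / (R' - R) := by positivity
      calc (R / (R' - R)) ^ N = Real.exp (N * Real.log (R / (R' - R))) := by
            rw [Real.exp_nat_mul, Real.exp_log hpos]
        _ ≤ Real.exp (κ * (B / Real.log (R' / R))) := by
            apply Real.exp_le_exp.mpr
            calc (N : ℝ) * Real.log (R / (R' - R)) ≤ N * κ := by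
                  gcongr; exact le_max_right _ _
              _ = κ * N := by ring
              _ ≤ κ * (B / Real.log (R' / R)) := by gcongr
    calc Real.exp B * ((R / (R' - R)) ^ N * ‖g c‖)
        ≤ Real.exp B * (Real.exp (κ * (B / Real.log (R' / R))) * ‖g c‖) := by gcongr
      _ = Real.exp B' * ‖g c‖ := by
          rw [← mul_assoc, ← Real.exp_add]; congr 2; rw [hB']; ring
  have hgd : DiffContOnCl ℂ g (ball c R') := by
    refine DifferentiableOn.diffContOnCl ?_
    rw [closure_ball _ hR'.ne']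
    exact hg.differentiableOn
  have hball : ∀ z ∈ ball c R, ‖g z‖ ≤ Real.exp B' * ‖g c‖ := by
    intro z hz
    refine Complex.norm_le_of_forall_mem_frontier_norm_le isBounded_ball hgd ?_ ?_
    · intro w hw
      rw [frontier_ball _ hR'.ne'] at hw
      exact hsphere w hw
    · exact subset_closure (ball_subset_ball hRR.le hz)
  have hcoef := coeff_bound hR hB'pos
    (hg.mono ((ball_subset_closedBall).trans (closedBall_subset_closedBall hRR.le)))
    (fun z hz => hgne z (ball_subset_closedBall hz)) hball hk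
  -- identity of logarithmic derivatives near c
  have hPan : ∀ z, AnalyticAt ℂ P z := by
    intro z
    exact Finset.analyticAt_fun_prod S (fun ρ _ => (analyticAt_id.sub analyticAt_const).pow _)
  have hev : logDeriv f =ᶠ[𝓝 c] fun z =>
      (∑ ρ ∈ S, (analyticOrderNatAt f ρ : ℂ) * (z - ρ)⁻¹) + logDeriv g z := by
    have hcl : IsClosed ((S : Finset ℂ) : Set ℂ) := S.finite_toSet.isClosed
    have hc' : c ∈ ((S : Finset ℂ) : Set ℂ)ᶜ := by simpa using hcS
    filter_upwards [hcl.isOpen_compl.mem_nhds hc', isOpen_ball.mem_nhds (mem_ball_self hR)]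
      with z hzS hzR
    have hzS' : z ∉ S := by simpa using hzS
    have hne : ∀ ρ ∈ S, z - ρ ≠ 0 := by
      intro ρ hρ h
      rw [sub_eq_zero] at h
      exact hzS' (h ▸ hρ)
    have hfe : f =ᶠ[𝓝 z] fun w => P w * g w := by
      filter_upwards [isOpen_ball.mem_nhds (ball_subset_ball hRR.le hzR)] with w hw
      exact hfg w (ball_subset_closedBall hw)
    have hz' : z ∈ closedBall c R' :=
      ball_subset_closedBall (ball_subset_ball hRR.le hzR)
    have hPz : P z ≠ 0 := Finset.prod_ne_zero_iff.mpr fun ρ hρ => pow_ne_zero _ (hne ρ hρ)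
    have hgz : g z ≠ 0 := hgne z (ball_subset_closedBall hzR)
    have h1 : logDeriv f z = logDeriv (fun w => P w * g w) z := by
      rw [logDeriv_apply, logDeriv_apply, hfe.deriv_eq, hfe.self_of_nhds]
    rw [h1, logDeriv_mul z hPz hgz (hPan z).differentiableAt (hg z hz').differentiableAt]
    congr 1
    have h2 : logDeriv P z = ∑ ρ ∈ S, logDeriv (fun w => (w - ρ) ^ analyticOrderNatAt f ρ) z := by
      have := logDeriv_prod (𝕜 := ℂ) (𝕜' := ℂ) (s := S)
        (f := fun ρ w => (w - ρ) ^ analyticOrderNatAt f ρ) (x := z)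
        (fun ρ hρ => pow_ne_zero _ (hne ρ hρ)) (fun ρ _ => by fun_prop)
      exact this
    rw [h2]
    refine Finset.sum_congr rfl fun ρ hρ => ?_
    have h3 : HasDerivAt (fun w : ℂ => (w - ρ) ^ analyticOrderNatAt f ρ)
        ((analyticOrderNatAt f ρ : ℂ) * (z - ρ) ^ (analyticOrderNatAt f ρ - 1) * 1) z :=
      ((hasDerivAt_id z).sub_const ρ).pow _
    rw [logDeriv_apply, h3.deriv]
    rcases Nat.eq_zero_or_pos (analyticOrderNatAt f ρ) with h0 | h0
    · simp [h0]
    · obtain ⟨m, hm⟩ : ∃ m, analyticOrderNatAt f ρ = m + 1 := ⟨_, (Nat.sub_add_cancel h0).symm⟩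
      rw [hm, Nat.add_sub_cancel, mul_one, pow_succ]
      have := hne ρ hρ
      field_simp
  have hcne : ∀ ρ ∈ S, c - ρ ≠ 0 := by
    intro ρ hρ h
    rw [sub_eq_zero] at h
    exact hcS (h ▸ hρ)
  have hcd1 : ∀ ρ ∈ S, ContDiffAt ℂ (k - 1 : ℕ)
      (fun z => (analyticOrderNatAt f ρ : ℂ) * (z - ρ)⁻¹) c := by
    intro ρ hρ
    have : AnalyticAt ℂ (fun z => (analyticOrderNatAt f ρ : ℂ) * (z - ρ)⁻¹) c :=
      analyticAt_const.mul ((analyticAt_id.sub analyticAt_const).inv (hcne ρ hρ))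
    exact this.contDiffAt
  have hgan : AnalyticAt ℂ (logDeriv g) c := by
    have h1 : AnalyticAt ℂ g c := hg c hcb
    exact h1.deriv.div h1 hgc
  have hiter : iteratedDeriv (k - 1) (logDeriv f) c / (k - 1).factorial =
      -(∑ ρ ∈ S, (analyticOrderNatAt f ρ : ℂ) * ((ρ - c) ^ k)⁻¹) +
        iteratedDeriv (k - 1) (logDeriv g) c / (k - 1).factorial := by
    rw [hev.iteratedDeriv_eq]
    have h1 : (fun z => (∑ ρ ∈ S, (analyticOrderNatAt f ρ : ℂ) * (z - ρ)⁻¹) + logDeriv g z) =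
        (fun z => ∑ ρ ∈ S, (analyticOrderNatAt f ρ : ℂ) * (z - ρ)⁻¹) + logDeriv g := rfl
    rw [h1, iteratedDeriv_add (ContDiffAt.sum hcd1) hgan.contDiffAt, add_div]
    congr 1
    rw [iteratedDeriv_fun_sum hcd1, Finset.sum_div, ← Finset.sum_neg_distrib]
    refine Finset.sum_congr rfl fun ρ hρ => ?_
    rw [iteratedDeriv_const_mul_field, mul_div_assoc, h13_iter_inv k hk]
    ring
  have hset : {ρ : ℂ | ρ ∈ closedBall c R ∧ f ρ = 0} = (S : Set ℂ) := by
    ext ρ; simp only [Set.mem_ofPred_eq, Finset.mem_coe]; exact (hS ρ).symm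
  rw [hset, finsum_mem_coe_finset, hiter]
  have h5 : -(∑ ρ ∈ S, (analyticOrderNatAt f ρ : ℂ) * ((ρ - c) ^ k)⁻¹) +
        iteratedDeriv (k - 1) (logDeriv g) c / (k - 1).factorial +
        ∑ ρ ∈ S, (analyticOrderNatAt f ρ : ℂ) * ((ρ - c) ^ k)⁻¹ =
      iteratedDeriv (k - 1) (logDeriv g) c / (k - 1).factorial := by ring
  rw [h5]
  refine hcoef.trans (le_of_eq ?_)
  rw [hB']
  ring

end Pool.Agent.helper6.LD
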