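import Pool.Agent.helper6.LD.Defs

/-!
E1: extraction of the zeros of an analytic function in a disc.
-/

set_option autoImplicit false

open Complex Metric Filter Topology

namespace Pool.Agent.helper6.LD

theorem h13_order_ne_top {f : ℂ → ℂ} {c : ℂ} {R' : ℝ} (hR' : 0 < R')
    (hf : AnalyticOnNhd ℂ f (closedBall c R')) (hc : f c ≠ 0) {z : ℂ} (hz : z ∈ closedBall c R') :
    analyticOrderAt f z ≠ ⊤ := by
  have hcb : c ∈ closedBall c R' := mem_closedBall_self hR'.le
  refine hf.analyticOrderAt_ne_top_of_isPreconnected (convex_closedBall c R').isPreconnected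
    hcb hz ?_
  rw [(hf c hcb).analyticOrderAt_eq_zero.mpr hc]
  exact ENat.zero_ne_top

theorem h13_zeros_finite {f : ℂ → ℂ} {c : ℂ} {R R' : ℝ} (hR : 0 < R) (hRR : R < R')
    (hf : AnalyticOnNhd ℂ f (closedBall c R')) (hc : f c ≠ 0) :
    {z : ℂ | z ∈ closedBall c R ∧ f z = 0}.Finite := by
  by_contra hinf
  have hsub : {z : ℂ | z ∈ closedBall c R ∧ f z = 0} ⊆ closedBall c R := fun z hz => hz.1
  obtain ⟨x, hx, hacc⟩ := Set.Infinite.exists_accPt_of_subset_isCompact hinf
    (isCompact_closedBall c R) hsub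
  have hxR' : x ∈ closedBall c R' := closedBall_subset_closedBall hRR.le hx
  have hfr : ∃ᶠ z in 𝓝[≠] x, f z = 0 := by
    rw [accPt_iff_frequently_nhdsNE] at hacc
    exact hacc.mono fun z hz => hz.2
  have := hf.eqOn_zero_of_preconnected_of_frequently_eq_zero
    (convex_closedBall c R').isPreconnected hxR' hfr
  exact hc (this (mem_closedBall_self (hR.trans hRR).le))

/-- E1 -/
theorem factor {f : ℂ → ℂ} {c : ℂ} {R R' : ℝ} (hR : 0 < R) (hRR : R < R')
    (hf : AnalyticOnNhd ℂ f (closedBall c R')) (hc : f c ≠ 0) :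
    ∃ (S : Finset ℂ) (g : ℂ → ℂ), (∀ ρ, ρ ∈ S ↔ ρ ∈ closedBall c R ∧ f ρ = 0) ∧
      AnalyticOnNhd ℂ g (closedBall c R') ∧
      (∀ z ∈ closedBall c R', f z = (∏ ρ ∈ S, (z - ρ) ^ analyticOrderNatAt f ρ) * g z) ∧
      (∀ z ∈ closedBall c R, g z ≠ 0) := by
  classical
  have hR' : 0 < R' := hR.trans hRR
  have hfin := h13_zeros_finite hR hRR hf hc
  set S : Finset ℂ := hfin.toFinset with hS
  have hmem : ∀ ρ, ρ ∈ S ↔ ρ ∈ closedBall c R ∧ f ρ = 0 := by
    intro ρ; simp [hS]
  -- local factors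
  have hloc : ∀ z ∈ closedBall c R', ∃ h : ℂ → ℂ, AnalyticAt ℂ h z ∧ h z ≠ 0 ∧
      f =ᶠ[𝓝 z] fun w => (w - z) ^ analyticOrderNatAt f z * h w := by
    intro z hz
    obtain ⟨h, h1, h2, h3⟩ := ((hf z hz).analyticOrderAt_ne_top).mp (h13_order_ne_top hR' hf hc hz)
    exact ⟨h, h1, h2, by simpa using h3⟩
  choose! h hh1 hh2 hh3 using hloc
  set P : ℂ → ℂ := fun z => ∏ ρ ∈ S, (z - ρ) ^ analyticOrderNatAt f ρ with hP
  set Q : ℂ → ℂ → ℂ := fun ρ z => ∏ σ ∈ S.erase ρ, (z - σ) ^ analyticOrderNatAt f σ with hQ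
  set g : ℂ → ℂ := fun z => if z ∈ S then h z z / Q z z else f z / P z with hg
  have hPne : ∀ z, z ∉ S → P z ≠ 0 := by
    intro z hz
    refine Finset.prod_ne_zero_iff.mpr fun ρ hρ => pow_ne_zero _ (sub_ne_zero.mpr ?_)
    rintro rfl; exact hz hρ
  have hQne : ∀ ρ, Q ρ ρ ≠ 0 := by
    intro ρ
    refine Finset.prod_ne_zero_iff.mpr fun σ hσ => pow_ne_zero _ (sub_ne_zero.mpr ?_)
    exact (Finset.ne_of_mem_erase hσ).symm
  have hPQ : ∀ ρ ∈ S, ∀ z, P z = (z - ρ) ^ analyticOrderNatAt f ρ * Q ρ z := by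
    intro ρ hρ z
    exact (Finset.mul_prod_erase S (fun σ => (z - σ) ^ analyticOrderNatAt f σ) hρ).symm
  have hPan : ∀ z, AnalyticAt ℂ P z := by
    intro z
    exact Finset.analyticAt_fun_prod S (fun ρ _ => (analyticAt_id.sub analyticAt_const).pow _)
  have hQan : ∀ ρ z, AnalyticAt ℂ (Q ρ) z := by
    intro ρ z
    exact Finset.analyticAt_fun_prod _ (fun σ _ => (analyticAt_id.sub analyticAt_const).pow _)
  have hSin : ∀ ρ ∈ S, ρ ∈ closedBall c R' := fun ρ hρ =>
    closedBall_subset_closedBall hRR.le ((hmem ρ).mp hρ).1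
  refine ⟨S, g, hmem, ?_, ?_, ?_⟩
  · -- analyticity
    intro z hz
    by_cases hzS : z ∈ S
    · have han : AnalyticAt ℂ (fun w => h z w / Q z w) z := (hh1 z hz).div (hQan z z) (hQne z)
      refine han.congr ?_
      have hne : ∀ᶠ w in 𝓝 z, w ∉ S.erase z := by
        have hcl : IsClosed ((S.erase z : Finset ℂ) : Set ℂ) := (S.erase z).finite_toSet.isClosed
        have : z ∈ ((S.erase z : Finset ℂ) : Set ℂ)ᶜ := by simp
        filter_upwards [hcl.isOpen_compl.mem_nhds this] with w hw hw'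
        exact hw hw'
      filter_upwards [hne, hh3 z hz] with w hw hfw
      by_cases hwz : w = z
      · subst hwz
        simp [hg, hzS]
      · have hwS : w ∉ S := fun hc' => hw (Finset.mem_erase.mpr ⟨hwz, hc'⟩)
        have hpow : (w - z) ^ analyticOrderNatAt f z ≠ 0 := pow_ne_zero _ (sub_ne_zero.mpr hwz)
        simp only [hg, hwS, if_false]
        rw [hPQ z hzS w, hfw, mul_div_mul_left _ _ hpow]
    · have han : AnalyticAt ℂ (fun w => f w / P w) z := (hf z hz).div (hPan z) (hPne z hzS)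
      refine han.congr ?_
      have hcl : IsClosed ((S : Finset ℂ) : Set ℂ) := S.finite_toSet.isClosed
      have hz' : z ∈ ((S : Finset ℂ) : Set ℂ)ᶜ := by simpa using hzS
      filter_upwards [hcl.isOpen_compl.mem_nhds hz'] with w hw
      have hw' : w ∉ S := by simpa using hw
      simp [hg, hw']
  · -- factorisation
    intro z hz
    by_cases hzS : z ∈ S
    · have hf0 : f z = 0 := ((hmem z).mp hzS).2
      have hm : analyticOrderNatAt f z ≠ 0 := by
        intro h0
        have := (hh3 z hz).self_of_nhds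
        simp only [h0, pow_zero, one_mul, hf0] at this
        exact hh2 z hz this.symm
      have : P z = 0 := by
        rw [hPQ z hzS z, sub_self, zero_pow hm, zero_mul]
      rw [hf0]
      change 0 = P z * g z
      rw [this, zero_mul]
    · have hne := hPne z hzS
      change f z = P z * g z
      simp only [hg, hzS, if_false]
      field_simp
  · -- non vanishing
    intro z hz
    have hz' : z ∈ closedBall c R' := closedBall_subset_closedBall hRR.le hz
    by_cases hzS : z ∈ S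
    · simp only [hg, hzS, if_true]
      exact div_ne_zero (hh2 z hz') (hQne z)
    · simp only [hg, hzS, if_false]
      refine div_ne_zero ?_ (hPne z hzS)
      intro h0
      exact hzS ((hmem z).mpr ⟨hz, h0⟩)

end Pool.Agent.helper6.LD
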